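import Pool.Agent.TH742.OM.Final

set_option autoImplicit false

/-!
There is a Turing degree `d ≤ 0^(ω)` such that no countably categorical theory (in fact, no
complete theory at all) of Turing degree `d` has a computable model. In fact every complete theory
which has a computable model and is computable from `d` is decidable, while `d` is not computable.
The definitions are in `Pool.Agent.TH742.OM.Defs`.
-/

namespace Pool.Agent.Results.MP_f36693_lc.DegreeBelowOmegaJumpOmitted

open Pool.Agent.TH742.OM
open Pool.Agent.Helper750.DC (Lang Fml)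

theorem result : ∃ D : Set ℕ, deg D ≤ deg zeroOmega ∧ ¬ ComputablePred (· ∈ D) ∧
    (∀ (L : Lang) (T : Set Fml) (A : Str), L.IsComputable → IsCompleteTheory L T →
      IsComputableStr L A → IsModel T A → deg (codes T) ≤ deg D →
      ComputablePred (· ∈ codes T)) ∧
    (¬ ∃ (L : Lang) (T : Set Fml) (A : Str), L.IsComputable ∧ IsCompleteTheory L T ∧
      IsComputableStr L A ∧ IsModel T A ∧ deg (codes T) = deg D) ∧
    ¬ ∃ (L : Lang) (T : Set Fml) (A : Str), L.IsComputable ∧ IsCompleteTheory L T ∧
      CountablyCategorical L T ∧ IsComputableStr L A ∧ IsModel T A ∧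
      deg (codes T) = deg D := by
  obtain ⟨D, h1, h2, h3⟩ := main
  have h4 : ¬ ∃ (L : Lang) (T : Set Fml) (A : Str), L.IsComputable ∧ IsCompleteTheory L T ∧
      IsComputableStr L A ∧ IsModel T A ∧ deg (codes T) = deg D := by
    rintro ⟨L, T, A, hL, hT, hc, hA, hd⟩
    exact h2 (computable_of_le hd.ge (h3 L T A hL hT hc hA hd.le))
  refine ⟨D, h1, h2, h3, h4, ?_⟩
  rintro ⟨L, T, A, hL, hT, -, hc, hA, hd⟩
  exact h4 ⟨L, T, A, hL, hT, hc, hA, hd⟩

end Pool.Agent.Results.MP_f36693_lc.DegreeBelowOmegaJumpOmitted
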